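import Mathlib
import Pool.Agent.P.MP_7faad7_pr.Defs
import Pool.Agent.P.MP_7faad7_pr.Example

namespace Pool.Agent.Results.MP_7faad7_pr.FiniteIndexNotAR

open Pool.Agent.P.MP_7faad7_pr

/-- Algebraic recurrence does not pass to finite-index subgroups: there is a finitely generated
(countable) algebraically recurrent group with a finite-index subgroup that is not
algebraically recurrent. -/
theorem result : ∃ (G : Type) (_ : Group G), Countable G ∧ Group.FG G ∧ IsAR G ∧
    ∃ H : Subgroup G, H.FiniteIndex ∧ ¬ IsAR H :=
  ⟨GG, inferInstance, inferInstance, fg_GG, isAR_GG, HH, inferInstance, not_isAR_HH⟩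

end Pool.Agent.Results.MP_7faad7_pr.FiniteIndexNotAR
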